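import Mathlib
import Pool.Agent.Q172.NowhereDiff

open Set Metric Filter Topology
open scoped Topology

namespace Pool.Agent.Results.MP_047b76_an.AllCurves

open Pool.Agent.Q172.NowhereDiff

/-- For every `d ≥ 1` there is a continuous function `f` on `ℝ^d` such that for every interval `I`
with more than one point, every continuous curve `c` on `I` and every `t₀ ∈ I` at which `c` has
(within `I`) a nonzero derivative, `f ∘ c` has no finite derivative (within `I`) at `t₀`. In
particular this holds for every `C¹` unit speed curve and every `t₀` in its interval. -/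
theorem result (d : ℕ) (hd : 1 ≤ d) : ∃ f : EuclideanSpace ℝ (Fin d) → ℝ, Continuous f ∧
    ∀ (I : Set ℝ) (c : ℝ → EuclideanSpace ℝ (Fin d)), I.OrdConnected → I.Nontrivial →
      ContinuousOn c I → ∀ t₀ ∈ I, ∀ v : EuclideanSpace ℝ (Fin d), v ≠ 0 →
        HasDerivWithinAt c v I t₀ → ¬ DifferentiableWithinAt ℝ (fun t => f (c t)) I t₀ := by
  refine ⟨W hd, W_continuous hd, ?_⟩
  intro I c hI hnt hc t₀ ht₀ v hv hcv hdiff
  obtain ⟨t₁, ht₁, hne⟩ := hnt.exists_ne t₀
  -- the reparametrisation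
  obtain ⟨σ, hσ, η, hη, hσ1⟩ : ∃ σ : ℝ, (σ = 1 ∨ σ = -1) ∧ ∃ η > 0, t₀ + σ * η = t₁ := by
    rcases lt_or_gt_of_ne hne with h | h
    · exact ⟨-1, Or.inr rfl, t₀ - t₁, by linarith, by ring⟩
    · exact ⟨1, Or.inl rfl, t₁ - t₀, by linarith, by ring⟩
  have hσ0 : σ ≠ 0 := by rcases hσ with rfl | rfl <;> norm_num
  have hmaps : MapsTo (fun s : ℝ => t₀ + σ * s) (Icc 0 η) I := by
    intro s hs
    have hseg : uIcc t₀ t₁ ⊆ I := hI.uIcc_subset ht₀ ht₁
    apply hseg
    rw [← hσ1]
    rcases hσ with rfl | rfl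
    · rw [uIcc_of_le (by linarith)]
      constructor <;> simp only [one_mul] <;> linarith [hs.1, hs.2]
    · rw [uIcc_of_ge (by linarith)]
      constructor <;> simp only [neg_mul, one_mul] <;> linarith [hs.1, hs.2]
  have hφ : HasDerivWithinAt (fun s : ℝ => t₀ + σ * s) σ (Icc 0 η) 0 := by
    have : HasDerivAt (fun s : ℝ => t₀ + σ * s) σ 0 := by
      simpa using ((hasDerivAt_id (0:ℝ)).const_mul σ).const_add t₀
    exact this.hasDerivWithinAt
  have h0 : t₀ + σ * 0 = t₀ := by ring
  refine one_sided hd (fun s => c (t₀ + σ * s)) η hη ?_ (σ • v) (smul_ne_zero hσ0 hv) ?_ ?_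
  · exact hc.comp (by fun_prop) hmaps
  · have h1 : HasDerivWithinAt c v I (t₀ + σ * 0) := by rw [h0]; exact hcv
    exact h1.scomp 0 hφ hmaps
  · have h1 : DifferentiableWithinAt ℝ (fun t => W hd (c t)) I (t₀ + σ * 0) := by
      rw [h0]; exact hdiff
    exact h1.comp 0 hφ.differentiableWithinAt hmaps

end Pool.Agent.Results.MP_047b76_an.AllCurves
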